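import Pool.Agent.Lib.MP_dffe52_co.TR.Defs

/-! A vertex has at most three neighbours on a shortest odd cycle. -/

set_option autoImplicit false

namespace DFTR

open SimpleGraph

/-- an odd closed walk contains an odd cycle which is not longer -/
theorem odd_cycle_le {V : Type*} (G : SimpleGraph V) (u : V) (w : G.Walk u u)
    (hw : Odd w.length) :
    ∃ (v : V) (p : G.Walk v v), p.IsCycle ∧ Odd p.length ∧ p.length ≤ w.length := by
  obtain ⟨n, hn⟩ : ∃ n, w.length = n := ⟨_, rfl⟩
  induction n using Nat.strong_induction_on generalizing u with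
  | _ n ih =>
    cases w with
    | nil => simp at hw
    | @cons _ v' _ h q =>
      by_cases hq : q.IsPath
      · refine ⟨u, Walk.cons h q, ?_, hw, le_rfl⟩
        rw [Walk.isCycle_iff_isPath_tail_and_le_length]
        refine ⟨by simpa using hq, ?_⟩
        have h1 : (Walk.cons h q).length ≠ 1 := by
          intro h1
          exact G.loopless.irrefl u (Walk.adj_of_length_eq_one h1)
        obtain ⟨m, hm⟩ := hw
        omega
      · rw [Walk.isPath_iff_isSubwalk_imp_nil] at hq
        push Not at hq
        obtain ⟨x, c, hc, hcn⟩ := hq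
        obtain ⟨r1, r2, he⟩ := hc
        have hcl : c.length ≠ 0 := by
          intro h0
          exact hcn (Walk.length_eq_zero_iff.1 h0)
        have hql : q.length = r1.length + c.length + r2.length := by
          rw [he, Walk.length_append, Walk.length_append]
        rw [Walk.length_cons] at hn hw
        rcases Nat.even_or_odd c.length with hce | hco
        · -- remove the even closed walk
          have hlen : (Walk.cons h (r1.append r2)).length = r1.length + r2.length + 1 := by
            rw [Walk.length_cons, Walk.length_append]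
          have hodd : Odd (Walk.cons h (r1.append r2)).length := by
            rw [hlen]
            rw [hql] at hw
            obtain ⟨m, hm⟩ := hw
            obtain ⟨l, hl⟩ := hce
            exact ⟨m - l, by omega⟩
          obtain ⟨v, p, hp, hpo, hps⟩ := ih _ (by rw [hlen]; omega) u
            (Walk.cons h (r1.append r2)) hodd rfl
          refine ⟨v, p, hp, hpo, ?_⟩
          rw [Walk.length_cons]
          rw [hlen] at hps
          omega
        · obtain ⟨v, p, hp, hpo, hps⟩ := ih c.length (by omega) x c hco rfl
          refine ⟨v, p, hp, hpo, ?_⟩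
          rw [Walk.length_cons]
          omega

/-- a piece of a walk -/
theorem exists_piece {V : Type*} {G : SimpleGraph V} {a b : V} (p : G.Walk a b) (i n : ℕ)
    (h : i + n ≤ p.length) :
    ∃ q : G.Walk (p.getVert i) (p.getVert (i + n)), q.length = n := by
  induction n with
  | zero => exact ⟨Walk.nil, rfl⟩
  | succ n ih =>
    obtain ⟨q, hq⟩ := ih (by omega)
    have hadj : G.Adj (p.getVert (i + n)) (p.getVert (i + n + 1)) :=
      p.adj_getVert_succ (by omega)
    exact ⟨q.concat hadj, by rw [Walk.length_concat, hq]⟩

theorem nbrs_index {V : Type*} {G : SimpleGraph V} {v : V} (p : G.Walk v v)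
    (hmin : ∀ (u : V) (q : G.Walk u u), q.IsCycle → Odd q.length → p.length ≤ q.length)
    (hodd : Odd p.length) (x : V) {i j k l : ℕ} (hij : i < j) (hjk : j < k) (hkl : k < l)
    (hl : l < p.length) (hi' : G.Adj x (p.getVert i)) (hj' : G.Adj x (p.getVert j))
    (hk' : G.Adj x (p.getVert k)) (hl' : G.Adj x (p.getVert l)) : False := by
  have key : ∀ s n : ℕ, s + n ≤ p.length → G.Adj x (p.getVert s) →
      G.Adj x (p.getVert (s + n)) → Odd n → p.length ≤ n + 2 := by
    intro s n hsn h1 h2 ho
    obtain ⟨q, hq⟩ := exists_piece p s n hsn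
    obtain ⟨u, c, hc, hco, hcl⟩ := odd_cycle_le G x (Walk.cons h1 (q.concat h2.symm)) (by
      rw [Walk.length_cons, Walk.length_concat, hq]
      obtain ⟨m, hm⟩ := ho
      exact ⟨m + 1, by omega⟩)
    have := hmin u c hc hco
    rw [Walk.length_cons, Walk.length_concat, hq] at hcl
    omega
  have key2 : Odd (p.length - l + i) → p.length ≤ p.length - l + i + 2 := by
    intro ho
    obtain ⟨q1, hq1⟩ := exists_piece p l (p.length - l) (by omega)
    obtain ⟨q2, hq2⟩ := exists_piece p 0 i (by omega)
    have e1 : l + (p.length - l) = p.length := by omega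
    have e2 : p.getVert (l + (p.length - l)) = v := by
      rw [e1, Walk.getVert_length]
    have e3 : p.getVert 0 = v := Walk.getVert_zero p
    have e4 : (0 : ℕ) + i = i := by omega
    let q3 : G.Walk (p.getVert l) v := q1.copy rfl e2
    let q4 : G.Walk v (p.getVert i) := q2.copy e3 (by rw [e4])
    have h3 : q3.length = p.length - l := by
      simp only [q3, Walk.length_copy, hq1]
    have h4 : q4.length = i := by
      simp only [q4, Walk.length_copy, hq2]
    have h5 : (Walk.cons hl' ((q3.append q4).concat hi'.symm)).length =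
        p.length - l + i + 2 := by
      rw [Walk.length_cons, Walk.length_concat, Walk.length_append, h3, h4]
    obtain ⟨u, c, hc, hco, hcl⟩ := odd_cycle_le G x
      (Walk.cons hl' ((q3.append q4).concat hi'.symm)) (by
      rw [h5]
      obtain ⟨m, hm⟩ := ho
      exact ⟨m + 1, by omega⟩)
    have := hmin u c hc hco
    rw [h5] at hcl
    omega
  have a1 := key i (j - i) (by omega) hi' (by rwa [Nat.add_sub_cancel' hij.le])
  have a2 := key j (k - j) (by omega) hj' (by rwa [Nat.add_sub_cancel' hjk.le])
  have a3 := key k (l - k) (by omega) hk' (by rwa [Nat.add_sub_cancel' hkl.le])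
  simp only [Nat.odd_iff] at *
  omega

/-- every vertex has at most three neighbours on a shortest odd cycle -/
theorem nbrs_le_three {V : Type*} {G : SimpleGraph V} {v : V} (p : G.Walk v v)
    (hmin : ∀ (u : V) (q : G.Walk u u), q.IsCycle → Odd q.length → p.length ≤ q.length)
    (hodd : Odd p.length) (x : V) (F : Finset V)
    (hF : ∀ w ∈ F, G.Adj x w ∧ w ∈ p.support) : F.card ≤ 3 := by
  classical
  set I : Finset ℕ := (Finset.range p.length).filter (fun i => G.Adj x (p.getVert i)) with hI
  have hsub : F ⊆ I.image p.getVert := by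
    intro w hw
    obtain ⟨h1, h2⟩ := hF w hw
    obtain ⟨n, hn, hnl⟩ := Walk.mem_support_iff_exists_getVert.1 h2
    rw [Finset.mem_image]
    by_cases hlt : n < p.length
    · exact ⟨n, by rw [hI, Finset.mem_filter, Finset.mem_range, hn]; exact ⟨hlt, h1⟩, hn⟩
    · have hn' : n = p.length := by omega
      have hv : w = v := by rw [← hn, hn', Walk.getVert_length]
      refine ⟨0, ?_, ?_⟩
      · rw [hI, Finset.mem_filter, Finset.mem_range, Walk.getVert_zero]
        exact ⟨hodd.pos, hv ▸ h1⟩
      · rw [Walk.getVert_zero, hv]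
  refine le_trans (Finset.card_le_card hsub) (le_trans Finset.card_image_le ?_)
  by_contra hcon
  push Not at hcon
  have hm : ∀ a : Fin I.card, G.Adj x (p.getVert (I.orderEmbOfFin rfl a)) ∧
      I.orderEmbOfFin rfl a < p.length := by
    intro a
    have h9 : ∀ n ∈ I, G.Adj x (p.getVert n) ∧ n < p.length := by
      intro n hn
      rw [hI, Finset.mem_filter, Finset.mem_range] at hn
      exact ⟨hn.2, hn.1⟩
    exact h9 _ (I.orderEmbOfFin_mem rfl a)
  have hlt : ∀ a b : Fin I.card, a < b → I.orderEmbOfFin rfl a < I.orderEmbOfFin rfl b :=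
    fun a b h => (I.orderEmbOfFin rfl).strictMono h
  exact nbrs_index p hmin hodd x
    (hlt ⟨0, by omega⟩ ⟨1, by omega⟩ (by simp [Fin.lt_def]))
    (hlt ⟨1, by omega⟩ ⟨2, by omega⟩ (by simp [Fin.lt_def]))
    (hlt ⟨2, by omega⟩ ⟨3, by omega⟩ (by simp [Fin.lt_def]))
    (hm ⟨3, by omega⟩).2 (hm _).1 (hm _).1 (hm _).1 (hm _).1

end DFTR
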