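import Pool.Agent.Lib.MP_dffe52_co.TR.A

/-! Deleting a locally sparse set from a graph with transport along edges. -/

set_option autoImplicit false

namespace DFTR

open SimpleGraph

/-- joined by a walk outside `B` (or equal) -/
def Rch {V : Type*} (G : SimpleGraph V) (B : Set V) (a b : V) : Prop :=
  Relation.ReflTransGen (fun x y => G.Adj x y ∧ x ∉ B ∧ y ∉ B) a b

theorem Rch.symm {V : Type*} {G : SimpleGraph V} {B : Set V} {a b : V} (h : Rch G B a b) :
    Rch G B b a := by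
  induction h with
  | refl => exact Relation.ReflTransGen.refl
  | tail _ h2 ih => exact Relation.ReflTransGen.head ⟨h2.1.symm, h2.2.2, h2.2.1⟩ ih

theorem Rch.trans {V : Type*} {G : SimpleGraph V} {B : Set V} {a b c : V} (h : Rch G B a b)
    (h' : Rch G B b c) : Rch G B a c := Relation.ReflTransGen.trans h h'

theorem Rch.step {V : Type*} {G : SimpleGraph V} {B : Set V} {a b : V} (ha : a ∉ B) (hb : b ∉ B)
    (h : b = a ∨ G.Adj a b) : Rch G B a b := by
  rcases h with h | h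
  · rw [h]; exact Relation.ReflTransGen.refl
  · exact Relation.ReflTransGen.single ⟨h, ha, hb⟩

theorem Rch.reachable {V : Type*} {G : SimpleGraph V} {B : Set V} {a b : V} (h : Rch G B a b)
    (ha : a ∈ Bᶜ) : ∃ hb : b ∈ Bᶜ, (G.induce Bᶜ).Reachable ⟨a, ha⟩ ⟨b, hb⟩ := by
  induction h with
  | refl => exact ⟨ha, Reachable.refl _⟩
  | @tail c d _ h2 ih =>
    obtain ⟨hc, h3⟩ := ih
    refine ⟨h2.2.2, h3.trans (Adj.reachable ?_)⟩
    rw [SimpleGraph.induce_adj]
    exact h2.1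

/-- assembling local connections -/
theorem assemble {V : Type*} (G : SimpleGraph V) (hG : G.Connected) (B : Set V)
    (free : ∀ v : V, ∃ a, G.Adj v a ∧ a ∉ B)
    (local1 : ∀ v u w : V, G.Adj v u → G.Adj v w → u ∉ B → w ∉ B → Rch G B u w)
    (local2 : ∀ v u : V, G.Adj v u → ∃ a b : V, G.Adj v a ∧ G.Adj u b ∧ a ∉ B ∧ b ∉ B ∧
      Rch G B a b) : (G.induce Bᶜ).Connected := by
  have far : ∀ v v' : V, G.Walk v v' → ∀ a b : V, G.Adj v a → G.Adj v' b → a ∉ B → b ∉ B →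
      Rch G B a b := by
    intro v v' p
    induction p with
    | nil => intro a b ha hb haB hbB; exact local1 _ a b ha hb haB hbB
    | @cons x y z h q ih =>
      intro a b ha hb haB hbB
      obtain ⟨s, t, hs, ht, hsB, htB, hst⟩ := local2 x y h
      exact ((local1 x a s ha hs haB hsB).trans hst).trans (ih t b ht hb htB hbB)
  obtain ⟨v0⟩ := hG.nonempty
  obtain ⟨a0, _, ha0⟩ := free v0
  rw [connected_iff]
  refine ⟨?_, ⟨⟨a0, ha0⟩⟩⟩
  intro a b
  obtain ⟨v, hv⟩ : ∃ v, G.Adj v a.1 := by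
    obtain ⟨w, hw, _⟩ := free a.1
    exact ⟨w, hw.symm⟩
  obtain ⟨v', hv'⟩ : ∃ v, G.Adj v b.1 := by
    obtain ⟨w, hw, _⟩ := free b.1
    exact ⟨w, hw.symm⟩
  obtain ⟨p⟩ := hG.preconnected v v'
  obtain ⟨_, h⟩ := (far v v' p a.1 b.1 hv hv' a.2 b.2).reachable a.2
  exact h

theorem transport_conn {V : Type*} [Finite V] (G : SimpleGraph V) (T : V → Set V) (c m : ℕ)
    (hG : G.Connected) (hT : Transport G T c) (hd : ∀ v, 3 * m + 2 * c + 1 ≤ (T v).ncard)
    (B : Set V)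
    (hB : ∀ v, (G.neighborSet v ∩ B).ncard ≤ m) : (G.induce Bᶜ).Connected := by
  classical
  -- bad neighbours
  have bad : ∀ v u : V, G.Adj v u → u ∉ B → ∃ Z : Set V, Z.ncard ≤ c + m ∧
      ∀ w ∈ T v, w ∉ B → w ∉ Z → Rch G B u w := by
    intro v u hvu hu
    obtain ⟨D, τ, hD, hDc, hinj, hτ⟩ := hT.2 v u hvu
    refine ⟨(T v \ D) ∪ {w | w ∈ D ∧ τ w ∈ B}, ?_, ?_⟩
    · have h1 : ({w | w ∈ D ∧ τ w ∈ B} : Set V).ncard ≤ m := by
        refine le_trans ?_ (hB u)
        refine Set.ncard_le_ncard_of_injOn τ ?_ ?_ (Set.toFinite _)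
        · intro w hw
          exact ⟨(hτ w hw.1).1, hw.2⟩
        · intro a ha b hb h
          exact hinj ha.1 hb.1 h
      exact le_trans (Set.ncard_union_le _ _) (by omega)
    · intro w hw hwB hwZ
      have hwD : w ∈ D := by
        by_contra h
        exact hwZ (Or.inl ⟨hw, h⟩)
      have hτB : τ w ∉ B := fun h => hwZ (Or.inr ⟨hwD, h⟩)
      obtain ⟨h1, h2⟩ := hτ w hwD
      exact (Rch.step hu hτB (Or.inr h1)).trans (Rch.step hwB hτB h2).symm
  have hTB : ∀ v, (T v ∩ B).ncard ≤ m := fun v =>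
    le_trans (Set.ncard_le_ncard (show T v ∩ B ⊆ G.neighborSet v ∩ B from
      fun a ha => ⟨hT.1 v ha.1, ha.2⟩) (Set.toFinite _)) (hB v)
  refine assemble G hG B ?_ ?_ ?_
  · -- free neighbours exist
    intro v
    by_contra hcon
    push Not at hcon
    have h3 : (T v).ncard ≤ (T v ∩ B).ncard :=
      Set.ncard_le_ncard (fun a ha => ⟨ha, hcon a (hT.1 v ha)⟩) (Set.toFinite _)
    have h6 := hTB v
    have h7 := hd v
    omega
  · -- all free neighbours of a vertex are joined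
    intro v u w hu hw huB hwB
    obtain ⟨Z1, hZ1, h1⟩ := bad v u hu huB
    obtain ⟨Z2, hZ2, h2⟩ := bad v w hw hwB
    have hex : ∃ z ∈ T v, z ∉ (T v ∩ B) ∪ (Z1 ∪ Z2) := by
      by_contra hcon
      push Not at hcon
      have h3 : (T v).ncard ≤ ((T v ∩ B) ∪ (Z1 ∪ Z2)).ncard :=
        Set.ncard_le_ncard hcon (Set.toFinite _)
      have h4 := Set.ncard_union_le (T v ∩ B) (Z1 ∪ Z2)
      have h5 := Set.ncard_union_le Z1 Z2
      have h6 := hTB v
      have h7 := hd v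
      omega
    obtain ⟨z, hz, hz'⟩ := hex
    simp only [Set.mem_union, Set.mem_inter_iff, not_or, not_and] at hz'
    exact (h1 z hz (hz'.1 hz) hz'.2.1).trans (h2 z hz (hz'.1 hz) hz'.2.2).symm
  · -- along an edge
    intro v u hvu
    obtain ⟨D, τ, hD, hDc, hinj, hτ⟩ := hT.2 v u hvu
    have h1 : ({w | w ∈ D ∧ τ w ∈ B} : Set V).ncard ≤ m := by
      refine le_trans ?_ (hB u)
      refine Set.ncard_le_ncard_of_injOn τ ?_ ?_ (Set.toFinite _)
      · intro w hw
        exact ⟨(hτ w hw.1).1, hw.2⟩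
      · intro a ha b hb h
        exact hinj ha.1 hb.1 h
    have hex : ∃ z ∈ T v,
        z ∉ (T v ∩ B) ∪ ((T v \ D) ∪ {w | w ∈ D ∧ τ w ∈ B}) := by
      by_contra hcon
      push Not at hcon
      have h3 : (T v).ncard ≤
          ((T v ∩ B) ∪ ((T v \ D) ∪ {w | w ∈ D ∧ τ w ∈ B})).ncard :=
        Set.ncard_le_ncard hcon (Set.toFinite _)
      have h4 := Set.ncard_union_le (T v ∩ B)
        ((T v \ D) ∪ {w | w ∈ D ∧ τ w ∈ B})
      have h5 := Set.ncard_union_le (T v \ D) {w | w ∈ D ∧ τ w ∈ B}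
      have h6 := hTB v
      have h7 := hd v
      omega
    obtain ⟨z, hz, hz'⟩ := hex
    simp only [Set.mem_union, Set.mem_inter_iff, Set.mem_sdiff, Set.mem_ofPred_eq, not_or,
      not_and, not_not] at hz'
    have hzB : z ∉ B := hz'.1 hz
    have hzD : z ∈ D := hz'.2.1 hz
    have hτB : τ z ∉ B := hz'.2.2 hzD
    obtain ⟨h8, h9⟩ := hτ z hzD
    exact ⟨z, τ z, hT.1 v hz, h8, hzB, hτB, Rch.step hzB hτB h9⟩

end DFTR
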