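import Pool.Agent.Lib.MP_dffe52_co.TR.B

/-! Shortest odd cycles in graphs with transport, and Cayley graphs. -/

set_option autoImplicit false

namespace DFTR

open SimpleGraph

theorem main {V : Type*} [Finite V] (G : SimpleGraph V) (k c : ℕ) (T : V → Set V)
    (hG : G.Connected) (hT : Transport G T c) (hd : ∀ v, 3 * k + 2 * c + 7 ≤ (T v).ncard)
    (v : V) (p : G.Walk v v) (hodd : Odd p.length)
    (hmin : ∀ (u : V) (q : G.Walk u u), q.IsCycle → Odd q.length → p.length ≤ q.length) :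
    k < ({x : V | x ∉ p.support}).ncard ∧
      ∀ S : Finset V, S.card < k →
        (G.induce ({x : V | x ∉ p.support} \ (↑S : Set V))).Connected := by
  classical
  have h3 : ∀ x : V, (G.neighborSet x ∩ {y | y ∈ p.support}).ncard ≤ 3 := by
    intro x
    have hfin : (G.neighborSet x ∩ {y | y ∈ p.support}).Finite := Set.toFinite _
    rw [Set.ncard_eq_toFinset_card _ hfin]
    refine nbrs_le_three p hmin hodd x _ ?_
    intro w hw
    rw [Set.Finite.mem_toFinset] at hw
    exact hw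
  refine ⟨?_, ?_⟩
  · have h4 : (G.neighborSet v).ncard ≤ (G.neighborSet v ∩ {y | y ∈ p.support}).ncard +
        ({x : V | x ∉ p.support}).ncard := by
      refine le_trans (Set.ncard_le_ncard ?_ (Set.toFinite _)) (Set.ncard_union_le _ _)
      intro w hw
      by_cases h : w ∈ p.support
      · exact Or.inl ⟨hw, h⟩
      · exact Or.inr h
    have h5 := h3 v
    have h6 := hd v
    have h7 : (T v).ncard ≤ (G.neighborSet v).ncard :=
      Set.ncard_le_ncard (hT.1 v) (Set.toFinite _)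
    omega
  · intro S hS
    have e : ({x : V | x ∉ p.support} \ (↑S : Set V)) =
        ({y | y ∈ p.support} ∪ (↑S : Set V))ᶜ := by
      ext x
      simp
    rw [e]
    refine transport_conn G T c (k + 2) hG hT (fun v => le_trans (by omega) (hd v)) _ ?_
    intro x
    have h4 : (G.neighborSet x ∩ ({y | y ∈ p.support} ∪ (↑S : Set V))).ncard ≤
        (G.neighborSet x ∩ {y | y ∈ p.support}).ncard + (↑S : Set V).ncard := by
      refine le_trans (Set.ncard_le_ncard ?_ (Set.toFinite _)) (Set.ncard_union_le _ _)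
      intro w hw
      rcases hw.2 with h | h
      · exact Or.inl ⟨hw.1, h⟩
      · exact Or.inr h
    have h5 := h3 x
    rw [Set.ncard_coe_finset] at h4
    omega

/-- the same for locally sparse sets of any size -/
theorem main_sparse {V : Type*} [Finite V] (G : SimpleGraph V) (k c : ℕ) (T : V → Set V)
    (hG : G.Connected) (hT : Transport G T c) (hd : ∀ v, 3 * k + 2 * c + 7 ≤ (T v).ncard)
    (v : V) (p : G.Walk v v) (hodd : Odd p.length)
    (hmin : ∀ (u : V) (q : G.Walk u u), q.IsCycle → Odd q.length → p.length ≤ q.length)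
    (X : Set V) (hX : ∀ x, (G.neighborSet x ∩ X).ncard < k) :
    (G.induce ({x : V | x ∉ p.support} \ X)).Connected := by
  classical
  have h3 : ∀ x : V, (G.neighborSet x ∩ {y | y ∈ p.support}).ncard ≤ 3 := by
    intro x
    have hfin : (G.neighborSet x ∩ {y | y ∈ p.support}).Finite := Set.toFinite _
    rw [Set.ncard_eq_toFinset_card _ hfin]
    refine nbrs_le_three p hmin hodd x _ ?_
    intro w hw
    rw [Set.Finite.mem_toFinset] at hw
    exact hw
  have e : ({x : V | x ∉ p.support} \ X) = ({y | y ∈ p.support} ∪ X)ᶜ := by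
    ext x
    simp
  rw [e]
  refine transport_conn G T c (k + 2) hG hT (fun v => le_trans (by omega) (hd v)) _ ?_
  intro x
  have h4 : (G.neighborSet x ∩ ({y | y ∈ p.support} ∪ X)).ncard ≤
      (G.neighborSet x ∩ {y | y ∈ p.support}).ncard + (G.neighborSet x ∩ X).ncard := by
    refine le_trans (Set.ncard_le_ncard ?_ (Set.toFinite _)) (Set.ncard_union_le _ _)
    intro w hw
    rcases hw.2 with h | h
    · exact Or.inl ⟨hw.1, h⟩
    · exact Or.inr ⟨hw.1, h⟩
  have h5 := h3 x
  have h6 := hX x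
  omega

/-- a shortest odd cycle exists -/
theorem exists_shortest {V : Type*} (G : SimpleGraph V)
    (h : ∃ (v : V) (p : G.Walk v v), p.IsCycle ∧ Odd p.length) :
    ∃ (v : V) (p : G.Walk v v), p.IsCycle ∧ Odd p.length ∧
      ∀ (u : V) (q : G.Walk u u), q.IsCycle → Odd q.length → p.length ≤ q.length := by
  classical
  have h' : ∃ n : ℕ, ∃ (v : V) (p : G.Walk v v), p.IsCycle ∧ Odd p.length ∧ p.length = n := by
    obtain ⟨v, p, h1, h2⟩ := h
    exact ⟨_, v, p, h1, h2, rfl⟩
  obtain ⟨v, p, h1, h2, h3⟩ := Nat.find_spec h'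
  refine ⟨v, p, h1, h2, fun u q hq hqo => ?_⟩
  rw [h3]
  exact Nat.find_min' h' ⟨u, q, hq, hqo, rfl⟩

/-- an `N`-connected graph is connected and has minimum degree at least `N` (`N ≥ 1`) -/
theorem degree_of_conn {V : Type*} [Fintype V] (G : SimpleGraph V) (N : ℕ)
    (hG : N < Fintype.card V ∧
      ∀ S : Finset V, S.card < N → (G.induce ((↑S : Set V)ᶜ)).Connected) (v : V) :
    N ≤ (G.neighborSet v).ncard := by
  classical
  by_contra hcon
  push Not at hcon
  have hfin : (G.neighborSet v).Finite := Set.toFinite _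
  set S : Finset V := hfin.toFinset with hSd
  have hScard : S.card < N := by
    rw [hSd, ← Set.ncard_eq_toFinset_card _ hfin]; exact hcon
  have hvS : v ∉ S := by
    rw [hSd, Set.Finite.mem_toFinset]; simp
  obtain ⟨w, hw⟩ : ∃ w, w ∉ insert v S := by
    by_contra h
    push Not at h
    have h2 : Fintype.card V ≤ (insert v S).card := by
      rw [← Finset.card_univ]; exact Finset.card_le_card (fun x _ => h x)
    have h3 := Finset.card_insert_le v S
    have h4 := hG.1
    omega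
  rw [Finset.mem_insert, not_or] at hw
  have hc := hG.2 S hScard
  have hv' : v ∈ ((↑S : Set V)ᶜ) := by simpa using hvS
  have hw' : w ∈ ((↑S : Set V)ᶜ) := by simpa using hw.2
  obtain ⟨p⟩ := hc.preconnected ⟨v, hv'⟩ ⟨w, hw'⟩
  cases p with
  | nil => exact hw.1 rfl
  | @cons _ y _ h q =>
    have h1 : G.Adj v y.1 := by simpa using h
    have h0 : ∀ z, G.Adj v z → z ∈ S := by
      intro z hz
      rw [hSd, Set.Finite.mem_toFinset]
      exact hz
    have h2 : y.1 ∈ S := h0 _ h1
    exact y.2 (by simpa using h2)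

theorem conn_of_conn {V : Type*} [Fintype V] (G : SimpleGraph V) (N : ℕ) (hN : 0 < N)
    (hG : N < Fintype.card V ∧
      ∀ S : Finset V, S.card < N → (G.induce ((↑S : Set V)ᶜ)).Connected) : G.Connected := by
  have h := hG.2 ∅ (by simpa using hN)
  have e : ((↑(∅ : Finset V) : Set V)ᶜ) = Set.univ := by simp
  rw [e] at h
  exact (SimpleGraph.induceUnivIso G).connected_iff.1 h

/-- Cayley graphs -/
theorem transport_cayley {Γ : Type*} [Group Γ] [Finite Γ] (S T : Set Γ) (hTS : T ⊆ S)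
    (h1T : (1 : Γ) ∉ T) (G : SimpleGraph Γ)
    (hG : ∀ x y, G.Adj x y ↔ x ≠ y ∧ x⁻¹ * y ∈ S) (c : ℕ)
    (hc : ∀ s ∈ S, ({t | t ∈ T ∧ s⁻¹ * t * s ∉ S} : Set Γ).ncard ≤ c) :
    Transport G (fun v => {w | v⁻¹ * w ∈ T}) c := by
  refine ⟨?_, ?_⟩
  · intro v w hw
    have hw' : v⁻¹ * w ∈ T := hw
    refine (hG v w).2 ⟨?_, hTS hw'⟩
    rintro rfl
    rw [inv_mul_cancel] at hw'
    exact h1T hw'
  intro v u hvu
  obtain ⟨hne, hs⟩ := (hG v u).1 hvu
  refine ⟨{w | v⁻¹ * w ∈ T ∧ (v⁻¹ * u)⁻¹ * (v⁻¹ * w) * (v⁻¹ * u) ∈ S},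
    fun w => w * (v⁻¹ * u), fun w hw => hw.1, ?_, ?_, ?_⟩
  · refine le_trans (Set.ncard_le_ncard_of_injOn (fun w => v⁻¹ * w) ?_ ?_ (Set.toFinite _))
      (hc _ hs)
    · intro w hw
      have h1 : v⁻¹ * w ∈ T := hw.1
      have h2 : ¬ (v⁻¹ * w ∈ T ∧ (v⁻¹ * u)⁻¹ * (v⁻¹ * w) * (v⁻¹ * u) ∈ S) := hw.2
      exact ⟨h1, fun h => h2 ⟨h1, h⟩⟩
    · intro a _ b _ h
      exact mul_left_cancel h
  · intro a _ b _ h
    exact mul_right_cancel h
  · intro w hw
    have h1 : v⁻¹ * w ∈ T := hw.1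
    have h2 : (v⁻¹ * u)⁻¹ * (v⁻¹ * w) * (v⁻¹ * u) ∈ S := hw.2
    have hvw : v ≠ w := by
      rintro rfl
      rw [inv_mul_cancel] at h1
      exact h1T h1
    refine ⟨(hG _ _).2 ⟨?_, ?_⟩, Or.inr ((hG _ _).2 ⟨?_, ?_⟩)⟩
    · intro h
      apply hvw
      have h3 : w * (v⁻¹ * u) = v * (v⁻¹ * u) := by
        rw [mul_inv_cancel_left]; exact h.symm
      exact (mul_right_cancel h3).symm
    · have e : u⁻¹ * (w * (v⁻¹ * u)) = (v⁻¹ * u)⁻¹ * (v⁻¹ * w) * (v⁻¹ * u) := by group
      rw [e]; exact h2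
    · intro h
      apply hne
      have h3 : v⁻¹ * u = 1 := by
        have h4 : w * 1 = w * (v⁻¹ * u) := by rw [mul_one]; exact h
        exact (mul_left_cancel h4).symm
      exact inv_mul_eq_one.1 h3
    · have e : w⁻¹ * (w * (v⁻¹ * u)) = v⁻¹ * u := by group
      rw [e]; exact hs

/-- the set of `T`-neighbours of a vertex of a Cayley graph has `T.ncard` elements -/
theorem ncard_cayley {Γ : Type*} [Group Γ] (T : Set Γ) (v : Γ) :
    ({w | v⁻¹ * w ∈ T} : Set Γ).ncard = T.ncard := by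
  have e : ({w | v⁻¹ * w ∈ T} : Set Γ) = (fun t => v * t) '' T := by
    ext w
    constructor
    · intro hw
      exact ⟨v⁻¹ * w, hw, mul_inv_cancel_left v w⟩
    · rintro ⟨t, ht, rfl⟩
      change v⁻¹ * (v * t) ∈ T
      rw [inv_mul_cancel_left]; exact ht
  rw [e]
  exact Set.ncard_image_of_injective _ (mul_right_injective v)

end DFTR
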