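import Mathlib

/-! Definitions for the local version of Thomassen's question on odd cycles. -/

set_option autoImplicit false

namespace DFTR

open SimpleGraph

/-- `p` is an odd cycle of `G` of the smallest possible length. -/
def ShortestOdd {V : Type*} (G : SimpleGraph V) {v : V} (p : G.Walk v v) : Prop :=
  p.IsCycle ∧ Odd p.length ∧
    ∀ (u : V) (q : G.Walk u u), q.IsCycle → Odd q.length → p.length ≤ q.length

/-- `G - V(p)` is `k`-connected: more than `k` vertices, and connected after the deletion of any
set of fewer than `k` further vertices. -/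
def KConnAfter {V : Type*} (G : SimpleGraph V) (k : ℕ) {v : V} (p : G.Walk v v) : Prop :=
  k < ({x : V | x ∉ p.support}).ncard ∧
    ∀ S : Finset V, S.card < k →
      (G.induce ({x : V | x ∉ p.support} \ (↑S : Set V))).Connected

/-- Local detours: any two neighbours `u ≠ w` of any vertex `c` are, for some `r`, joined by a walk
of length at most `r` after the deletion of any `k + r + 2` other vertices. -/
def Detours {V : Type*} (G : SimpleGraph V) (k : ℕ) : Prop :=
  ∀ c u w : V, G.Adj c u → G.Adj c w → u ≠ w → ∃ r : ℕ, ∀ Y : Finset V,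
    Y.card ≤ k + r + 2 → u ∉ Y → w ∉ Y → ∃ q : G.Walk u w, q.length ≤ r ∧ ∀ x ∈ q.support, x ∉ Y

/-- Transport: for every edge `v u` all but at most `c` elements `w` of the set `T v` of neighbours
of `v` are sent injectively to neighbours `τ w` of `u` that are equal or adjacent to `w`. -/
def Transport {V : Type*} (G : SimpleGraph V) (T : V → Set V) (c : ℕ) : Prop :=
  (∀ v, T v ⊆ G.neighborSet v) ∧
  ∀ v u : V, G.Adj v u → ∃ (D : Set V) (τ : V → V), D ⊆ T v ∧
    (T v \ D).ncard ≤ c ∧ Set.InjOn τ D ∧
    ∀ w ∈ D, G.Adj u (τ w) ∧ (τ w = w ∨ G.Adj w (τ w))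

/-- the neighbours of a vertex of a Cartesian product that come from `T` and `U` -/
def boxT {V W : Type*} (T : V → Set V) (U : W → Set W) : V × W → Set (V × W) :=
  fun y => {x | (x.1 ∈ T y.1 ∧ x.2 = y.2) ∨ (x.1 = y.1 ∧ x.2 ∈ U y.2)}

end DFTR
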